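import Pool.Agent.H56.ES.All

/-!
# MP_6045a2_an: the exact condition on the lengths of the gaps

The complement of open intervals of lengths `l i` contains similar copies of the bounded set `X` at
almost all of its points if the measures `V X (l i)` of the `l i`-neighbourhoods of `X` have a finite
sum (part 1). For every infinite bounded `X` this condition cannot be relaxed: almost all `(a, b)` can
fail, and if `V X t` is at most of the order `1 / |log t|` then for every `b ≠ 0` almost all `a` can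
fail (part 2). For sequences which decay at most like a power all `a` and all `b ≠ 0` can fail (part 3).
Part 4 computes `V` for lacunary sequences, such as `x n = 2 ^ (-n)`.
-/

open MeasureTheory Set Filter Topology
open scoped ENNReal

namespace Pool.Agent.Results.MP_6045a2_an.FiniteEntropy

/-- the measure of the set of all points whose distance from `X` is less than `t` -/
noncomputable def V (X : Set ℝ) (t : ℝ) : ℝ≥0∞ := volume (Metric.thickening t X)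

/-- the union of the open intervals `(c i, c i + l i)` -/
def gaps (c l : ℕ → ℝ) : Set ℝ := ⋃ i, Ioo (c i) (c i + l i)

/-- the number of indices `n` with `t ≤ |x n|`, in `[0, ∞]` -/
noncomputable def count (x : ℕ → ℝ) (t : ℝ) : ℝ≥0∞ := ∑' n, if t ≤ |x n| then 1 else 0

theorem result :
    (∀ (X : Set ℝ) (c l : ℕ → ℝ), Bornology.IsBounded X → (∀ i, 0 < l i) → ∑' i, V X (l i) < ∞ →
      Tendsto (fun b : ℝ => volume {a | a ∉ gaps c l ∧ ∃ x ∈ X, a + b * x ∈ gaps c l}) (𝓝 0) (𝓝 0) ∧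
      ∃ b : ℕ → ℝ, (∀ k, 0 < b k) ∧ Tendsto b atTop (𝓝 0) ∧
        ∀ᵐ a, a ∉ gaps c l → ∀ᶠ k in atTop, ∀ x ∈ X, a + b k * x ∉ gaps c l ∧ a - b k * x ∉ gaps c l) ∧
    (∀ (X : Set ℝ) (L : ℝ → ℝ≥0∞) (ε : ℝ), Bornology.IsBounded X → X.Infinite → 0 < ε →
      (∀ δ : ℝ, 0 < δ → ∃ᶠ t in 𝓝[>] 0, ENNReal.ofReal t * L t ≤ ENNReal.ofReal δ * V X t) →
      ∃ c l : ℕ → ℝ, (∀ i, 0 < l i) ∧ ∑' i, ENNReal.ofReal (l i) * (1 + L (l i)) ≤ ENNReal.ofReal ε ∧
        (∀ᵐ p : ℝ × ℝ, ∃ x ∈ X, p.1 + p.2 * x ∉ Icc 0 1 \ gaps c l) ∧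
        ((∀ δ : ℝ, 0 < δ → ∃ᶠ t in 𝓝[>] 0,
            ENNReal.ofReal t * L t ≤ ENNReal.ofReal δ * min (V X t) (ENNReal.ofReal (1 / |Real.log t|))) →
          ∀ b : ℝ, b ≠ 0 → ∀ᵐ a, ∃ x ∈ X, a + b * x ∉ Icc 0 1 \ gaps c l)) ∧
    (∀ (x : ℕ → ℝ) (C : ℝ) (L : ℝ → ℝ≥0∞) (ε : ℝ), (∀ n, 0 < x n) → Antitone x → Tendsto x atTop (𝓝 0) →
      (∀ n : ℕ, (n + 1) * (x n - x (n + 1)) ≤ C * x n) → 0 < ε →
      (∀ δ : ℝ, 0 < δ → ∃ᶠ t in 𝓝[>] 0, ENNReal.ofReal t * L t ≤ ENNReal.ofReal δ * V (range x) t) →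
      ∃ c l : ℕ → ℝ, (∀ i, 0 < l i) ∧ ∑' i, ENNReal.ofReal (l i) * (1 + L (l i)) ≤ ENNReal.ofReal ε ∧
        ∀ a b : ℝ, b ≠ 0 → ∃ n, a + b * x n ∉ Icc 0 1 \ gaps c l) ∧
    (∀ (q : ℝ) (x : ℕ → ℝ) (t : ℝ), q < 1 → (∀ n, 0 < x n) → (∀ n, x (n + 1) ≤ q * x n) → 0 < t →
      ENNReal.ofReal ((1 - q) * t) * count x t ≤ V (range x) t ∧
      V (range x) t ≤ ENNReal.ofReal t * (3 + 2 * count x t) ∧
      count x t ≤ ENNReal.ofReal (1 + (|Real.log (x 0)| + |Real.log t|) / -Real.log q)) := by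
  have hadd : ∀ (l : ℕ → ℝ) (L : ℝ → ℝ≥0∞) (ε : ℝ), 0 < ε → ∑' i, ENNReal.ofReal (l i) ≤ ENNReal.ofReal (ε / 2) →
      ∑' i, ENNReal.ofReal (l i) * L (l i) ≤ ENNReal.ofReal (ε / 2) →
      ∑' i, ENNReal.ofReal (l i) * (1 + L (l i)) ≤ ENNReal.ofReal ε := by
    intro l L ε hε h1 h2
    simp only [mul_add, mul_one]
    rw [ENNReal.tsum_add]
    refine (add_le_add h1 h2).trans (le_of_eq ?_)
    rw [← ENNReal.ofReal_add (by positivity) (by positivity), add_halves]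
  refine ⟨fun X c l hX hl hs => ?_, ?_, ?_, ?_⟩
  · have h := Pool.Agent.H56.ES.Gap.tendsto_miss (c := c) hX hl hs
    exact ⟨h, Pool.Agent.H56.ES.Gap.common h⟩
  · intro X L ε hXb hX hε hL
    exact Pool.Agent.H56.ES.Gap.sharp_all hXb hX hL hε
  · intro x C L ε hx hanti hlim hC hε hL
    obtain ⟨c, l, h1, h2, h3, h4⟩ := Pool.Agent.H56.ES.Gap.slow hx hanti hlim hC hL (half_pos hε)
    exact ⟨c, l, h1, hadd l L ε hε h2 h3, h4⟩
  · intro q x t hq hx hxq ht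
    exact ⟨Pool.Agent.H56.ES.Gap.vol_seq_ge hq hx hxq ht, Pool.Agent.H56.ES.Gap.vol_seq hx ht,
      Pool.Agent.H56.ES.Gap.count_le hq hx hxq ht⟩

end Pool.Agent.Results.MP_6045a2_an.FiniteEntropy
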