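import Pool.Agent.H55.ES.Sums
import Pool.Agent.H55.ES.Window

/-!
# MP_6045a2_an: sets which contain long and fine grids have no similar copy in some sets of
measure close to `1`

Part 1 is a criterion for a set `Z`, for instance the range of a null sequence; parts 2 and 3 are
its two main applications.
-/

open Filter Topology

namespace Pool.Agent.Results.MP_6045a2_an.GridSequences

open Pool.Agent.H55.ES

theorem result :
    (∀ Z : Set ℝ, (∀ R : ℝ, 1 ≤ R → HasGrid Z R) → Avoidable Z) ∧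
    (∀ X Y : Set ℝ, X.Infinite → NotTooSparse Y →
      Avoidable {z | ∃ x ∈ X, ∃ y ∈ Y, z = x + y}) ∧
    (∀ x : ℕ → ℝ, (∀ i, 0 < x i) → Tendsto (fun i => x (i + 1) / x i) atTop (𝓝 0) →
      Avoidable {z | ∃ i j : ℕ, j ≤ i ∧ i ≤ 3 * j ∧ z = (1 / 2 : ℝ) ^ j + x i}) :=
  ⟨fun _ hZ => avoid_of_grid hZ, fun _ _ hX hY => avoid_sum hX hY,
    fun x hx hlim => avoid_window x hx hlim⟩

end Pool.Agent.Results.MP_6045a2_an.GridSequences
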