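import Pool.Agent.H56.ES.RndF

/-!
# MP_6045a2_an: random gaps

`rest c l` is the set of all real numbers which lie in none of the open intervals `(c i, c i + l i)`. Parts 1 and 3:
the left end points `c i` are independent, with arbitrary laws of density at most `D` (for instance
`c i = p i + u i` with arbitrary given numbers `p i` and random shifts `u i` uniformly distributed in `[0, 1 / D]`).
Part 1: if the sum of the numbers `l i` and of the numbers `V X (l i) / |log (l i)|` is finite then almost surely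
every part of positive measure of `rest c l` contains similar copies of the bounded set `X`. Part 2: this
condition on the lengths cannot be relaxed, not even for the existence of a single copy. Part 3: for
lacunary sequences, such as `x n = 2 ^ (-n)`, the condition is just that the sum of the lengths is finite.
-/

open MeasureTheory Set Filter Topology
open scoped ENNReal

namespace Pool.Agent.Results.MP_6045a2_an.RandomGaps

/-- the measure of the set of all points whose distance from `X` is less than `t` -/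
noncomputable def V (X : Set ℝ) (t : ℝ) : ℝ≥0∞ := volume (Metric.thickening t X)

/-- the real numbers which lie in none of the open intervals `(c i, c i + l i)` -/
def rest (c l : ℕ → ℝ) : Set ℝ := (⋃ i, Ioo (c i) (c i + l i))ᶜ

theorem result :
    (∀ (μ : ℕ → Measure ℝ) [∀ i, IsProbabilityMeasure (μ i)] (D : ℝ), (∀ i, μ i ≤ ENNReal.ofReal D • volume) →
      ∀ (X : Set ℝ) (C s : ℝ) (l β : ℕ → ℝ), Bornology.IsBounded X → 0 < s →
      (∀ t : ℝ, 0 < t → t ≤ 1 → V X t ≤ ENNReal.ofReal (C * t ^ s)) →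
      (∀ i, 0 < l i) → Summable l → Summable (fun i => (V X (l i)).toReal / |Real.log (l i)|) →
      (∀ k, 0 < β k) → Tendsto β atTop (𝓝 0) →
      ∀ᵐ c ∂(Measure.infinitePi μ), ∀ J : Set ℝ, IsOpen J → 0 < volume (J ∩ rest c l) →
        ∃ᶠ k in atTop, ∃ a : ℝ, ∀ x ∈ X, a + β k * x ∈ J ∩ rest c l) ∧
    (∀ (X : Set ℝ) (L : ℝ → ℝ≥0∞) (ε : ℝ), Bornology.IsBounded X → 0 < ε →
      (∀ δ : ℝ, 0 < δ → ∃ᶠ t in 𝓝[>] 0,
        ENNReal.ofReal (t * |Real.log t|) * (1 + L t) ≤ ENNReal.ofReal δ * V X t) →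
      ∃ l : ℕ → ℝ, (∀ i, 0 < l i) ∧ ∑' i, ENNReal.ofReal (l i) * (1 + L (l i)) ≤ ENNReal.ofReal ε ∧
        ∀ᵐ c ∂(Measure.infinitePi fun _ => volume.restrict (Icc 0 1)), ∀ a b : ℝ, b ≠ 0 →
          ∃ x ∈ X, a + b * x ∉ Icc 0 1 ∩ rest c l) ∧
    (∀ (μ : ℕ → Measure ℝ) [∀ i, IsProbabilityMeasure (μ i)] (D : ℝ), (∀ i, μ i ≤ ENNReal.ofReal D • volume) →
      ∀ (q : ℝ) (x l β : ℕ → ℝ), q < 1 → (∀ n, 0 < x n) → (∀ n, x (n + 1) ≤ q * x n) →
      (∀ i, 0 < l i) → Summable l → (∀ k, 0 < β k) → Tendsto β atTop (𝓝 0) →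
      ∀ᵐ c ∂(Measure.infinitePi μ), ∀ J : Set ℝ, IsOpen J → 0 < volume (J ∩ rest c l) →
        ∃ᶠ k in atTop, ∃ a : ℝ, ∀ n, a + β k * x n ∈ J ∩ rest c l) := by
  refine ⟨?_, ?_, ?_⟩
  · intro μ hμp D hμ X C s l β hXb hs hV hl hls hlV hβ hβ0
    exact Pool.Agent.H56.ES.Gap.often_product μ hμ hXb hs hV hl hls hlV hβ hβ0
  · intro X L ε hXb hε hL
    exact Pool.Agent.H56.ES.Gap.random_none (P := Measure.infinitePi fun _ => volume.restrict (Icc 0 1))
      Pool.Agent.H56.ES.Gap.coord_meas (Pool.Agent.H56.ES.Gap.coord_map _) (Pool.Agent.H56.ES.Gap.coord_indep _)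
      hXb hL hε
  · intro μ hμp D hμ q x l β hq hx hxq hl hls hβ hβ0
    have hq0 : 0 < q := by
      by_contra h
      have := (hx 1).trans_le (hxq 0)
      nlinarith [hx 0]
    have hanti : Antitone x := antitone_nat_of_succ_le fun n => by
      have := hxq n
      nlinarith [hx n]
    have hXb : Bornology.IsBounded (range x) := by
      refine (Metric.isBounded_Icc 0 (x 0)).subset ?_
      rintro _ ⟨n, rfl⟩
      exact ⟨(hx n).le, hanti (Nat.zero_le n)⟩
    obtain ⟨C₁, hC₁⟩ := Pool.Agent.H56.ES.Gap.vol_lac hq hx hxq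
    have hC₂ : ∀ t : ℝ, 0 < t → volume (Metric.thickening t (range x)) ≤
        ENNReal.ofReal (|C₁| * t * (1 + |Real.log t|)) := fun t ht =>
      (hC₁ t ht).trans (ENNReal.ofReal_le_ofReal (mul_le_mul_of_nonneg_right
        (mul_le_mul_of_nonneg_right (le_abs_self _) ht.le) (by positivity)))
    have h1 := Pool.Agent.H56.ES.Gap.often_product μ hμ hXb (show (0 : ℝ) < 1 / 2 by norm_num)
      (C₀ := 2 * |C₁|) (fun t ht ht1 => (hC₂ t ht).trans (ENNReal.ofReal_le_ofReal
        (Pool.Agent.H56.ES.Gap.pow_of_log (abs_nonneg C₁) ht ht1))) hl hls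
      (Pool.Agent.H56.ES.Gap.summable_of_log (abs_nonneg C₁) hC₂ hl hls) hβ hβ0
    filter_upwards [h1] with c hc J hJ hpos
    refine (hc J hJ hpos).mono ?_
    rintro k ⟨a, ha⟩
    exact ⟨a, fun n => ha _ (mem_range_self n)⟩

end Pool.Agent.Results.MP_6045a2_an.RandomGaps
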