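import Pool.Agent.H69.TR.Reduction

/-!
# Similar copies with ratios from a thin set

For an infinite set `Z` of reals and a set `B` of ratios that is null for a suitable gauge function, compact
sets of nearly full measure in `[0,1]` contain no copy `a + bZ` with `b` in `B`.
-/

set_option autoImplicit false

namespace Pool.Agent.Results.MP_6045a2_an.ThinRatios

open MeasureTheory Filter Topology

/-- A gauge function: positive and increasing on the positive reals, with limit `0` at `0`. -/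
structure IsGauge (h : ℝ → ℝ) : Prop where
  pos : ∀ r, 0 < r → 0 < h r
  mono : ∀ r s, 0 < r → r ≤ s → h r ≤ h s
  tendsto : Tendsto h (𝓝[>] 0) (𝓝 0)

/-- `B` is null for the gauge `h`: for every `η > 0` it is covered by intervals of radii `r_n > 0` with
`∑ h(r_n) ≤ η`. -/
def GaugeNull (h : ℝ → ℝ) (B : Set ℝ) : Prop :=
  ∀ η : ℝ, 0 < η → ∃ c r : ℕ → ℝ, (∀ n, 0 < r n) ∧
    B ⊆ ⋃ n, Set.Icc (c n - r n) (c n + r n) ∧
    Summable (fun n => h (r n)) ∧ ∑' n, h (r n) ≤ η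

/-- The copy `a + bZ` of `Z`. -/
def copy (a b : ℝ) (Z : Set ℝ) : Set ℝ := (fun z => a + b * z) '' Z

/-- For every `ε > 0` some compact `E ⊆ [0,1]` of measure at least `1 - ε` contains no copy `a + bZ` with
`b ∈ B`, `b ≠ 0`. -/
def AvoidableFor (B Z : Set ℝ) : Prop :=
  ∀ ε : ℝ, 0 < ε → ∃ E : Set ℝ, E ⊆ Set.Icc 0 1 ∧ IsCompact E ∧ 1 - ε ≤ volume.real E ∧
    ∀ a b : ℝ, b ∈ B → b ≠ 0 → ¬ (copy a b Z ⊆ E)

/-- The assertion of Q1 for the set `Z`: some measurable set of positive measure contains no copy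
`a + bZ`, `b ≠ 0`. -/
def Avoidable (Z : Set ℝ) : Prop :=
  ∃ E : Set ℝ, MeasurableSet E ∧ 0 < volume E ∧ ∀ a b : ℝ, b ≠ 0 → ¬ (copy a b Z ⊆ E)

/-- The ratios of the copies of `Z` in `E`. -/
def ratios (Z E : Set ℝ) : Set ℝ := {b : ℝ | b ≠ 0 ∧ ∃ a : ℝ, copy a b Z ⊆ E}

/-- Sets of ratios which are null for `h` can be avoided, and Q1 holds for `Z` as soon as some set of positive
measure has only a null set of ratios. -/
def Negligible (h : ℝ → ℝ) (Z : Set ℝ) : Prop :=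
  (∀ B : Set ℝ, GaugeNull h B → AvoidableFor B Z) ∧
  (Avoidable Z ↔ ∃ E : Set ℝ, MeasurableSet E ∧ 0 < volume E ∧ GaugeNull h (ratios Z E))

theorem negligible_of {h : ℝ → ℝ} {Z : Set ℝ} (hh : H69TR.Gauge h)
    (hA : ∀ B : Set ℝ, H69TR.Null h B → H69TR.Avoid B Z) : Negligible h Z := by
  refine ⟨fun B hB => hA B hB, ?_, ?_⟩
  · rintro ⟨E, h1, h2, h3⟩
    refine ⟨E, h1, h2, ?_⟩
    have : ratios Z E = ∅ := by
      ext b
      simp only [ratios, Set.mem_setOf_eq, Set.mem_empty_iff_false, iff_false]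
      rintro ⟨hb, a, ha⟩
      exact h3 a b hb ha
    rw [this]
    exact H69TR.null_empty hh
  · rintro ⟨E, h1, h2, h3⟩
    exact H69TR.reduction hA E h1 h2 h3

theorem gauge_of {h : ℝ → ℝ} (hh : IsGauge h) : H69TR.Gauge h := ⟨hh.pos, hh.mono, hh.tendsto⟩

theorem result :
    (∀ x γ : ℕ → ℝ, (∀ j, 0 < γ j ∧ γ j ≤ 1) → Antitone γ → (∀ i j, i < j → γ j ≤ |x i - x j|) →
      ∀ h : ℝ → ℝ, IsGauge h →
        Summable (fun k : ℕ => Real.log (1 / h (γ (2 ^ k) / 4 ^ k)) / 2 ^ k) →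
        Negligible h (Set.range x)) ∧
    (∀ Z : Set ℝ, Z.Infinite → ∃ h : ℝ → ℝ, IsGauge h ∧ Negligible h Z) ∧
    (∀ (x : ℕ → ℝ) (q : ℝ), 0 < q → (∀ i j, i < j → q ^ j ≤ |x i - x j|) →
      ∀ h : ℝ → ℝ, IsGauge h →
        Summable (fun k : ℕ => Real.log (1 / h (Real.exp (-(2 : ℝ) ^ k))) / 2 ^ k) →
        Negligible h (Set.range x)) := by
  refine ⟨?_, ?_, ?_⟩
  · intro x γ hγ hγa hx h hh hs
    exact negligible_of (gauge_of hh) (fun B hB =>
      H69TR.avoid_seq x γ (fun j => (hγ j).1) (fun j => (hγ j).2) hγa hx h (gauge_of hh) hs B hB)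
  · intro Z hZ
    obtain ⟨h, hh, hA⟩ := H69TR.avoid_infinite Z hZ
    exact ⟨h, ⟨hh.pos, hh.mono, hh.lim⟩, negligible_of hh hA⟩
  · intro x q hq hx h hh hs
    exact negligible_of (gauge_of hh) (fun B hB =>
      H69TR.avoid_exponential x q hq hx h (gauge_of hh) hs B hB)

end Pool.Agent.Results.MP_6045a2_an.ThinRatios
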